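import Pool.Agent.H.MP_63799c_pr.B

/-! The min-max recursion for large degree: two basins and an expanding middle zone. -/

open Filter Topology Set

namespace Pool.Agent.H.MP_023911_pr

open Pool.Agent.Lib.helper3.MM Pool.Agent.H.MP_63799c_pr

structure Big (d : ℕ) (ρ : ℝ) : Prop where
  hd : 100 ≤ d
  r0 : 3 / 4 ≤ ρ
  r1 : ρ ≤ 1
  th : (d : ℝ) ^ 2 * ρ ^ (d - 1) ≤ 1 / 10
  ka : 1 - ρ ≤ (1 - 11 / d) ^ d / 2

lemma big : ∃ ρ d₀, ∀ d ≥ d₀, Big d ρ := by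
  have e0 := Real.exp_pos (-11)
  have e1 : Real.exp (-11) ≤ 1 := Real.exp_le_one_iff.2 (by norm_num)
  let ρ := 1 - Real.exp (-11) / 4
  have r0 : 3 / 4 ≤ ρ := by simp only [ρ]; linarith
  have r1 : ρ < 1 := by simp only [ρ]; linarith
  have a := (Real.tendsto_one_add_div_pow_exp (-11)).eventually (lt_mem_nhds (half_lt_self e0))
  have b := (tendsto_pow_const_mul_const_pow_of_abs_lt_one 2 (r := ρ)
    (by rwa [abs_of_pos (by linarith)])).eventually (gt_mem_nhds (show (0 : ℝ) < 3 / 40 by norm_num))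
  obtain ⟨N, hN⟩ := eventually_atTop.1 (a.and (b.and (eventually_ge_atTop 100)))
  refine ⟨ρ, N, fun d h => ?_⟩
  obtain ⟨p, q, r⟩ := hN d h
  refine ⟨r, r0, r1.le, ?_, by rw [neg_div, ← sub_eq_add_neg] at p; simp only [ρ]; linarith⟩
  obtain ⟨m, rfl⟩ := Nat.exists_eq_add_of_le' (show 1 ≤ d by omega)
  rw [pow_succ ρ] at q
  rw [Nat.add_sub_cancel]
  nlinarith [mul_nonneg (sq_nonneg ((m + 1 : ℕ) : ℝ)) (pow_nonneg (show 0 ≤ ρ by linarith) m)]

def R (d : ℕ) (F : ℤ → ℝ) : Prop :=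
  I F ∧ (∀ k < 0, F k ≤ 1 / (10 * d)) ∧ ∀ k > 0, 1 - 1 / (10 * d) ≤ F k

variable {d : ℕ} {ρ : ℝ} {F G : ℤ → ℝ}

/-- small values below -/
def Lo (d : ℕ) (F : ℤ → ℝ) (k : ℤ) : Prop := (F (k - 1) + F k) / 2 ≤ 11 / d
/-- large values -/
def Hi (F : ℤ → ℝ) (k : ℤ) : Prop := 1 / 4 ≤ (F (k - 1) + F k) / 2 ∧ 1 / 4 ≤ (F k + F (k + 1)) / 2

section
variable (h : Big d ρ)
include h

lemma Big.c : (100 : ℝ) ≤ d ∧ 0 < 1 / (10 * (d : ℝ)) ∧ 1 / (10 * (d : ℝ)) ≤ 1 / 1000 ∧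
    (11 : ℝ) / d = 110 * (1 / (10 * d)) ∧ (20 : ℝ) / d = 200 * (1 / (10 * d)) := by
  have : (100 : ℝ) ≤ d := by exact_mod_cast h.hd
  exact ⟨this, by positivity, one_div_le_one_div_of_le (by norm_num) (by linarith), by field_simp; norm_num,
    by field_simp; norm_num⟩

lemma Big.Q (hF : I F) {k : ℤ} (l : Lo d F k) :
    Q d ((F (k - 1) + F k) / 2) ((F k + F (k + 1)) / 2) ≤ ρ := by
  have := pow_le_pow_left₀ (by linarith [h.c]) (sub_le_sub_left l 1) d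
  have := pow_nonneg (sub_nonneg.2 (hF.av k (k + 1)).2) d
  unfold Lib.helper3.MM.Q
  linarith [h.ka]

lemma Big.lo (hF : I F) {k : ℤ} (l : Lo d F k) : Ψ d F k ≤ 1 / (10 * d) :=
  MP_63799c_pr.lo (by linarith [h.hd]) (by linarith [h.r0]) h.r1 h.th (hF.av _ _) (hF.av _ _) (h.Q hF l)

lemma Big.hi (hF : I F) {k : ℤ} (l : Hi F k) : 1 - 1 / (10 * d) ≤ Ψ d F k :=
  MP_63799c_pr.hi (by linarith [h.hd]) (by linarith [h.r0]) h.r1 h.th (hF.av _ _) (hF.av _ _)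
    (by linarith [h.r0, l.1]) (by linarith [h.r0, l.2])

lemma Big.lip (hF : I F) (hG : I G) {k : ℤ} (l : Lo d F k ∧ Lo d G k ∨ Hi F k ∧ Hi G k) {t : ℝ}
    (ht : ∀ k, |F k - G k| ≤ t) : |Ψ d F k - Ψ d G k| ≤ t / 10 := by
  have e : ∀ i j, |(F i + F j) / 2 - (G i + G j) / 2| ≤ t := fun i j =>
    abs_le.2 ⟨by linarith [abs_le.1 (ht i), abs_le.1 (ht j)], by linarith [abs_le.1 (ht i), abs_le.1 (ht j)]⟩
  have t0 := (abs_nonneg _).trans (ht 0)
  have := mul_le_mul_of_nonneg_left h.th t0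
  have r := h.r0
  rcases l with ⟨a, b⟩ | ⟨a, b⟩
  · refine (Lib.helper3.MM.lip (hF.av _ _) (hF.av _ _) (hG.av _ _) (hG.av _ _) (h.Q hF a) (h.Q hG b)
      (α := 1) (β := 1) (by linarith [(hF.av (k - 1) k).1]) (by linarith [(hG.av (k - 1) k).1])
      (by linarith [(hF.av k (k + 1)).1]) (by linarith [(hG.av k (k + 1)).1]) (e _ _) (e _ _)).trans ?_
    rw [one_pow]; linarith
  · refine (Lib.helper3.MM.lip (hF.av _ _) (hF.av _ _) (hG.av _ _) (hG.av _ _)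
      (Q_mem (hF.av _ _) (hF.av _ _)).2 (Q_mem (hG.av _ _) (hG.av _ _)).2
      (α := ρ) (β := ρ) (by linarith [a.1]) (by linarith [b.1])
      (by linarith [a.2]) (by linarith [b.2]) (e _ _) (e _ _)).trans ?_
    rw [one_pow]; linarith

lemma Big.neg (hF : R d F) {k : ℤ} (l : k < 0) : Lo d F k := by
  unfold Lo; linarith [hF.2.1 k l, hF.2.1 (k - 1) (by omega), h.c]

lemma Big.pos (hF : R d F) {k : ℤ} (l : 0 < k) : Hi F k :=
  ⟨by linarith [hF.2.2 k l, hF.1 (k - 1), h.c], by linarith [hF.2.2 k l, hF.1 (k + 1), h.c]⟩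

lemma Big.lo0 (hF : R d F) (l : F 0 ≤ 20 / d) : Lo d F 0 := by
  unfold Lo; linarith [hF.2.1 (0 - 1) (by omega), h.c]

omit h in
lemma hi0 (hF : I F) {k : ℤ} (l : 1 / 2 ≤ F k) : Hi F k :=
  ⟨by linarith [hF (k - 1)], by linarith [hF (k + 1)]⟩

lemma Big.step (hF : R d F) : R d (Ψ d F) :=
  ⟨hF.1.Ψ, fun _ l => h.lo hF.1 (h.neg hF l), fun _ l => h.hi hF.1 (h.pos hF l)⟩

lemma Big.iter (hF : R d F) (n : ℕ) : R d ((Ψ d)^[n] F) := by
  induction n with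
  | zero => exact hF
  | succ n ih => rw [Function.iterate_succ_apply']; exact h.step ih

lemma Big.off (hF : R d F) (hG : R d G) {t : ℝ} (ht : ∀ k, |F k - G k| ≤ t) {k : ℤ} (l : k ≠ 0) :
    |Ψ d F k - Ψ d G k| ≤ t / 10 :=
  h.lip hF.1 hG.1 (l.lt_or_gt.imp (fun l => ⟨h.neg hF l, h.neg hG l⟩) fun l => ⟨h.pos hF l, h.pos hG l⟩) ht

lemma Big.low (hF : R d F) (l : F 0 ≤ 20 / d) (n : ℕ) : (Ψ d)^[n] F 0 ≤ 20 / d := by
  induction n with
  | zero => exact l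
  | succ n ih =>
    rw [Function.iterate_succ_apply']
    linarith [h.lo (h.iter hF n).1 (h.lo0 (h.iter hF n) ih), h.c]

lemma Big.high (hF : R d F) (l : 1 / 2 ≤ F 0) (n : ℕ) : 1 / 2 ≤ (Ψ d)^[n] F 0 := by
  induction n with
  | zero => exact l
  | succ n ih =>
    rw [Function.iterate_succ_apply']
    linarith [h.hi (h.iter hF n).1 (hi0 (h.iter hF n).1 ih), h.c]

lemma Big.con (hF : R d F) (hG : R d G) (l : F 0 ≤ 20 / d ∧ G 0 ≤ 20 / d ∨ 1 / 2 ≤ F 0 ∧ 1 / 2 ≤ G 0)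
    (n : ℕ) : ∀ k, |(Ψ d)^[n] F k - (Ψ d)^[n] G k| ≤ 1 * (1 / 10) ^ n := by
  induction n with
  | zero => exact fun k => abs_le.2 ⟨by simp; linarith [hF.1 k, hG.1 k], by simp; linarith [hF.1 k, hG.1 k]⟩
  | succ n ih =>
    intro k
    simp only [Function.iterate_succ_apply']
    have a := h.iter hF n
    have b := h.iter hG n
    refine le_trans ?_ (show (1 * (1 / 10) ^ n / 10 : ℝ) ≤ _ from le_of_eq (by ring))
    rcases eq_or_ne k 0 with rfl | c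
    · exact h.lip a.1 b.1 (l.imp (fun l => ⟨h.lo0 a (h.low hF l.1 n), h.lo0 b (h.low hG l.2 n)⟩)
        fun l => ⟨hi0 a.1 (h.high hF l.1 n), hi0 b.1 (h.high hG l.2 n)⟩) ih
    · exact h.off a b ih c

lemma Big.exp (hF : R d F) (hG : R d G) (hs : ∀ k ≠ 0, |F k - G k| ≤ (F 0 - G 0) / 2)
    (z1 : 20 / d ≤ Ψ d G 0) (z2 : Ψ d F 0 ≤ 1 / 2) : 2 * (F 0 - G 0) ≤ Ψ d F 0 - Ψ d G 0 := by
  have s1 := abs_le.1 (hs (0 - 1) (by omega))
  have s2 := abs_le.1 (hs (0 + 1) (by omega))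
  have a1 := hF.1.av (0 - 1) 0
  have a2 := hG.1.av (0 - 1) 0
  have b1 := hF.1.av 0 (0 + 1)
  have b2 := hG.1.av 0 (0 + 1)
  have b3 : 1 - (G 0 + G (0 + 1)) / 2 ≤ ρ := by
    linarith [hG.2.2 (0 + 1) (by omega), hG.1 0, h.c, h.r0]
  have e1 : (F 0 - G 0) / 4 ≤ (F (0 - 1) + F 0) / 2 - (G (0 - 1) + G 0) / 2 := by linarith
  have e2 : (G 0 + G (0 + 1)) / 2 ≤ (F 0 + F (0 + 1)) / 2 := by linarith
  have y0 : 0 ≤ F 0 - G 0 := by linarith
  unfold Ψ at z1 z2 ⊢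
  generalize (F (0 - 1) + F 0) / 2 = a' at *
  generalize (G (0 - 1) + G 0) / 2 = a at *
  generalize (F 0 + F (0 + 1)) / 2 = b' at *
  generalize (G 0 + G (0 + 1)) / 2 = b at *
  generalize F 0 - G 0 = y at *
  have c := h.c
  have m1 := pow_le_pow_left₀ (Q_mem a1 b2).1 (Q_mono (d := d) le_rfl e2 a1.2 b1.2) d
  have m2 := Lib.helper3.MM.low (Q_mem a2 b2).1 (Q_mem a2 b2).2
    (Q_mono (d := d) (show a ≤ a' by linarith) le_rfl a1.2 b2.2) d
  have m3 := Lib.helper3.MM.low (sub_nonneg.2 a1.2) (by linarith [a1.1]) (show 1 - a' ≤ 1 - a by linarith) d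
  have m4 := one_add_mul_le_pow (a := Lib.helper3.MM.Q d a' b - 1) (by linarith [(Q_mem (d := d) a1 b2).1]) d
  have m5 := pow_small (by linarith [h.hd]) (by linarith [h.r0]) h.r1 h.th
  have m6 := mul_le_mul_of_nonneg_left (pow_le_pow_left₀ (sub_nonneg.2 b2.2) b3 d) d.cast_nonneg
  rw [add_sub_cancel] at m4
  have q1 : Lib.helper3.MM.Q d a' b - Lib.helper3.MM.Q d a b = ((1 - a) ^ d - (1 - a') ^ d) / 2 := by unfold Lib.helper3.MM.Q; ring
  have q2 : Lib.helper3.MM.Q d a' b - 1 = -((1 - a') ^ d + (1 - b) ^ d) / 2 := by unfold Lib.helper3.MM.Q; ring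
  rw [q1] at m2
  rw [q2] at m4
  have k1 : 9 / 10 ≤ d * (1 - a') ^ d := by linarith
  have k2 : 9 / 40 * y ≤ (1 - a) ^ d - (1 - a') ^ d := by nlinarith
  have k3 : 20 ≤ d * Lib.helper3.MM.Q d a b ^ d := by rwa [div_le_iff₀' (by linarith)] at z1
  nlinarith

/-- the orbit stays in the middle zone -/
def Z (d : ℕ) (F : ℤ → ℝ) : Prop := ∀ n, 20 / d ≤ (Ψ d)^[n] F 0 ∧ (Ψ d)^[n] F 0 ≤ 1 / 2

lemma Big.cone (hF : R d F) (hG : R d G) (z1 : Z d F) (z2 : Z d G)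
    (hs : ∀ k ≠ 0, |F k - G k| ≤ (F 0 - G 0) / 2) : F 0 ≤ G 0 := by
  by_contra c
  have : ∀ n, 2 ^ n * (F 0 - G 0) ≤ (Ψ d)^[n] F 0 - (Ψ d)^[n] G 0 ∧ ∀ k ≠ 0,
      |(Ψ d)^[n] F k - (Ψ d)^[n] G k| ≤ ((Ψ d)^[n] F 0 - (Ψ d)^[n] G 0) / 2 := fun n => by
    induction n with
    | zero => exact ⟨by simp, hs⟩
    | succ n ih =>
      have p := (z2 (n + 1)).1
      have q := (z1 (n + 1)).2
      simp only [Function.iterate_succ_apply'] at p q ⊢
      have e := h.exp (h.iter hF n) (h.iter hG n) ih.2 p q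
      have y := (abs_nonneg _).trans (ih.2 1 one_ne_zero)
      refine ⟨by rw [pow_succ]; linarith [ih.1], fun k l => (h.off (h.iter hF n) (h.iter hG n)
        (t := (Ψ d)^[n] F 0 - (Ψ d)^[n] G 0) (fun j => ?_) l).trans (by linarith)⟩
      rcases eq_or_ne j 0 with rfl | c
      · exact (abs_of_nonneg (by linarith)).le
      · linarith [ih.2 j c]
  obtain ⟨n, hn⟩ := pow_unbounded_of_one_lt (1 / (F 0 - G 0)) (one_lt_two (α := ℝ))
  rw [div_lt_iff₀ (by linarith)] at hn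
  linarith [(this n).1, ((h.iter hF n).1 0).2, ((h.iter hG n).1 0).1]

omit h in
lemma Z.iter (z : Z d F) (m : ℕ) : Z d ((Ψ d)^[m] F) := fun n => by
  rw [← Function.iterate_add_apply]; exact z _

lemma Big.mid (hF : R d F) (hG : R d G) (z1 : Z d F) (z2 : Z d G) (n : ℕ) :
    ∀ k, |(Ψ d)^[n] F k - (Ψ d)^[n] G k| ≤ 2 * (1 / 5) ^ n := by
  have key : ∀ {F G : ℤ → ℝ} {s : ℝ}, R d F → R d G → Z d F → Z d G → (∀ k ≠ 0, |F k - G k| ≤ s) →
      ∀ k, |F k - G k| ≤ 2 * s := fun {F G s} hF hG z1 z2 hs k => by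
    have s0 := (abs_nonneg _).trans (hs 1 one_ne_zero)
    rcases eq_or_ne k 0 with rfl | c
    · refine abs_le.2 ⟨le_of_not_gt fun c => ?_, le_of_not_gt fun c => ?_⟩
      · linarith [h.cone hG hF z2 z1 fun k l => by rw [abs_sub_comm]; linarith [hs k l]]
      · linarith [h.cone hF hG z1 z2 fun k l => by linarith [hs k l]]
    · linarith [hs k c]
  induction n with
  | zero => exact fun k => abs_le.2 ⟨by simp; linarith [hF.1 k, hG.1 k], by simp; linarith [hF.1 k, hG.1 k]⟩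
  | succ n ih =>
    refine key (h.iter hF _) (h.iter hG _) (z1.iter _) (z2.iter _) fun k l => ?_
    simp only [Function.iterate_succ_apply']
    exact (h.off (h.iter hF n) (h.iter hG n) ih l).trans_eq (by ring)

end

/-- distribution functions -/
def C (F : ℤ → ℝ) : Prop := I F ∧ Monotone F ∧ Tendsto F atBot (𝓝 0) ∧ Tendsto F atTop (𝓝 1)

lemma lim {α : Type*} {l : Filter α} {f g k : α → ℝ} {x y z : ℝ} (hf : Tendsto f l (𝓝 x))
    (hg : Tendsto g l (𝓝 y)) (hk : Tendsto k l (𝓝 z)) :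
    Tendsto (fun i => Lib.helper3.MM.Q d ((f i + g i) / 2) ((g i + k i) / 2) ^ d) l
      (𝓝 (Lib.helper3.MM.Q d ((x + y) / 2) ((y + z) / 2) ^ d)) :=
  ((tendsto_const_nhds.sub (((tendsto_const_nhds.sub ((hf.add hg).div_const 2)).pow d).div_const 2)).sub
    (((tendsto_const_nhds.sub ((hg.add hk).div_const 2)).pow d).div_const 2)).pow d

lemma C.iter (hd : 0 < d) (h : C F) (n : ℕ) : C ((Ψ d)^[n] F) := by
  induction n with
  | zero => exact h
  | succ n ih =>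
    rw [Function.iterate_succ_apply']
    obtain ⟨a, b, c, e⟩ := ih
    refine ⟨a.Ψ, fun i j l => mono a a (add_le_add (b (by omega)) (b l)) (add_le_add (b l) (b (by omega))),
      ?_, ?_⟩
    · exact (lim (d := d) (c.comp (tendsto_atBot_add_const_right _ (-1) tendsto_id)) c
        (c.comp (tendsto_atBot_add_const_right _ 1 tendsto_id))).mono_right
        (le_of_eq (by norm_num [Lib.helper3.MM.Q, hd.ne']))
    · exact (lim (d := d) (e.comp (tendsto_atTop_add_const_right _ (-1) tendsto_id)) e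
        (e.comp (tendsto_atTop_add_const_right _ 1 tendsto_id))).mono_right
        (le_of_eq (by norm_num [Lib.helper3.MM.Q, hd.ne']))

lemma conv (hd : 0 < d) (h : C F) {c r : ℝ} (r0 : 0 ≤ r) (r1 : r < 1)
    (hc : ∀ n k, |(Ψ d)^[n] F k - (Ψ d)^[n] (Ψ d F) k| ≤ c * r ^ n) :
    ∃ L, C L ∧ Ψ d L = L ∧ (∀ k, Tendsto (fun n => (Ψ d)^[n] F k) atTop (𝓝 (L k))) ∧
      ∀ t > 0, ∃ n, ∀ k, |(Ψ d)^[n] F k - L k| ≤ t := by
  choose L hL using fun k => cauchySeq_tendsto_of_complete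
    (cauchySeq_of_le_geometric (f := fun n => (Ψ d)^[n] F k) r c r1 fun n => hc n k)
  have u : ∀ t > 0, ∃ n, ∀ k, |(Ψ d)^[n] F k - L k| ≤ t := fun t ht => by
    have := ((tendsto_pow_atTop_nhds_zero_of_lt_one r0 r1).const_mul c).div_const (1 - r)
    rw [mul_zero, zero_div] at this
    obtain ⟨n, hn⟩ := (this.eventually (gt_mem_nhds ht)).exists
    exact ⟨n, fun k => (dist_le_of_le_geometric_of_tendsto r c r1 (fun n => hc n k) (hL k) n).trans hn.le⟩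
  refine ⟨L, ⟨fun k => ⟨ge_of_tendsto' (hL k) fun n => (h.1.iter n k).1,
    le_of_tendsto' (hL k) fun n => (h.1.iter n k).2⟩, fun i j l =>
      le_of_tendsto_of_tendsto' (hL i) (hL j) fun n => (h.iter hd n).2.1 l, ?_, ?_⟩,
    funext fun k => tendsto_nhds_unique (lim (hL (k - 1)) (hL k) (hL (k + 1))) ?_, hL, u⟩
  · refine Metric.tendsto_nhds.2 fun t ht => ?_
    obtain ⟨n, hn⟩ := u (t / 2) (half_pos ht)
    filter_upwards [Metric.tendsto_nhds.1 (h.iter hd n).2.2.1 _ (half_pos ht)] with k hk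
    rw [Real.dist_eq, abs_lt] at *
    constructor <;> linarith [abs_le.1 (hn k)]
  · refine Metric.tendsto_nhds.2 fun t ht => ?_
    obtain ⟨n, hn⟩ := u (t / 2) (half_pos ht)
    filter_upwards [Metric.tendsto_nhds.1 (h.iter hd n).2.2.2 _ (half_pos ht)] with k hk
    rw [Real.dist_eq, abs_lt] at *
    constructor <;> linarith [abs_le.1 (hn k)]
  · refine ((tendsto_add_atTop_iff_nat 1).2 (hL k)).congr fun n => ?_
    rw [Function.iterate_succ_apply']; rfl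

noncomputable def b (p : ℝ) (k : ℤ) : ℝ := if k < 0 then 0 else if k = 0 then p else 1

lemma b_C {p : ℝ} (hp : p ∈ Icc (0 : ℝ) 1) : C (b p) :=
  ⟨fun k => by unfold b; split_ifs <;> simp [hp.1, hp.2], fun i j l => by
    unfold b; split_ifs <;> first | omega | simp [hp.1, hp.2],
  tendsto_const_nhds.congr' (eventually_atBot.2 ⟨-1, fun k l => (if_pos (by omega)).symm⟩),
  tendsto_const_nhds.congr' (eventually_atTop.2 ⟨1, fun k l => by
    simp [b, show ¬ k < 0 by omega, show k ≠ 0 by omega]⟩)⟩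

lemma b_R {p : ℝ} (hp : p ∈ Icc (0 : ℝ) 1) : R d (b p) :=
  ⟨(b_C hp).1, fun k l => by simp [b, l], fun k l => by simp [b, l.not_gt, l.ne']⟩

lemma b_cont (n : ℕ) : ∀ k, Continuous fun p => (Ψ d)^[n] (b p) k := by
  induction n with
  | zero => intro k; simp only [Function.iterate_zero, id, b]; split_ifs <;> fun_prop
  | succ n ih =>
    intro k
    simp only [Function.iterate_succ_apply']
    exact continuous_iff_continuousAt.2 fun p => lim (ih _).continuousAt (ih _).continuousAt (ih _).continuousAt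

lemma b_mono {p q : ℝ} (l : p ≤ q) : b p ≤ b q := fun k => by unfold b; split_ifs <;> simp [l]

lemma b_shift (n : ℕ) : ∀ k, (Ψ d)^[n] (b 0) k = (Ψ d)^[n] (b 1) (k - 1) := by
  induction n with
  | zero => intro k; simp only [Function.iterate_zero, id, b]; split_ifs <;> first | omega | rfl
  | succ n ih => intro k; simp only [Function.iterate_succ_apply', Ψ, ih, add_sub_right_comm]

lemma b_lip {p q : ℝ} (hp : p ∈ Icc (0 : ℝ) 1) (hq : q ∈ Icc (0 : ℝ) 1) (n : ℕ) :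
    ∀ k, |(Ψ d)^[n] (b p) k - (Ψ d)^[n] (b q) k| ≤ |p - q| * (d ^ 2) ^ n * 1 := by
  induction n with
  | zero => intro k; simp only [Function.iterate_zero, id, b]; split_ifs <;> simp
  | succ n ih =>
    intro k
    simp only [Function.iterate_succ_apply']
    have a := (b_C hp).1.iter (d := d) n
    have c := (b_C hq).1.iter (d := d) n
    refine (box (L := fun _ => 0) (U := fun _ => 1) (w := fun _ => 1) a c (fun _ => by simp)
      (fun k => (a k).1) (fun k => (c k).1) (fun k => (a k).2) (fun k => (c k).2) ih k).trans ?_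
    have u := Q_mem (d := d) (a := (1 + 1) / 2) (b := (1 + 1) / 2) (by norm_num) (by norm_num)
    have := pow_le_one₀ (n := d - 1) u.1 u.2
    calc _ ≤ |p - q| * (d ^ 2) ^ n * (((1 + 1) / 2 * (d : ℝ) * (1 - (0 + 0) / 2) ^ (d - 1) + (1 + 1) / 2 * d *
          (1 - (0 + 0) / 2) ^ (d - 1)) / 2 * d * 1) := by gcongr
      _ = _ := by norm_num; ring

theorem crit (h : Big d ρ) : ∃ pc ∈ Ioo (0 : ℝ) 1, ∃ L E : ℤ → ℝ, C L ∧ C E ∧ Ψ d E = E ∧
    L (-1) < E 0 ∧ E 0 < L 0 ∧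
    (∀ p ∈ Icc (0 : ℝ) 1, p < pc → ∀ k, Tendsto (fun n => (Ψ d)^[n] (b p) k) atTop (𝓝 (L (k - 1)))) ∧
    (∀ p ∈ Icc (0 : ℝ) 1, pc < p → ∀ k, Tendsto (fun n => (Ψ d)^[n] (b p) k) atTop (𝓝 (L k))) ∧
    (∀ k, Tendsto (fun n => (Ψ d)^[n] (b pc) k) atTop (𝓝 (E k))) ∧
    ∀ t > 0, ∃ G, C G ∧ (∀ k, |G k - E k| ≤ t) ∧ Tendsto (fun n => (Ψ d)^[n] G 0) atTop (𝓝 (L 0)) := by
  have c := h.c
  have d0 : 0 < d := by linarith [h.hd]
  have i0 : (0 : ℝ) ∈ Icc (0 : ℝ) 1 := by simp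
  have i1 : (1 : ℝ) ∈ Icc (0 : ℝ) 1 := by simp
  have b0 : ∀ p, b p 0 = p := fun p => by simp [b]
  let A := ⋃ n, {p | (Ψ d)^[n] (b p) 0 < 20 / d}
  let B := ⋃ n, {p | 1 / 2 < (Ψ d)^[n] (b p) 0}
  have dis : ∀ p ∈ Icc (0 : ℝ) 1, ∀ q ∈ Icc (0 : ℝ) 1, p ≤ q → q ∈ A → p ∉ B := fun p hp q hq l a e => by
    obtain ⟨n, hn⟩ := mem_iUnion.1 a
    obtain ⟨m, hm⟩ := mem_iUnion.1 e
    have u := h.low (h.iter (b_R hq) n) (le_of_lt hn) m
    have v := h.high (h.iter (b_R hp) m) (le_of_lt hm) n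
    rw [← Function.iterate_add_apply] at u v
    rw [add_comm] at v
    linarith [mono_iter (d := d) (b_C hp).1 (b_C hq).1 (b_mono l) (m + n) 0]
  have a0 : 0 ∈ A := mem_iUnion.2 ⟨0, by simp only [Function.iterate_zero, id, b0, mem_ofPred_eq]; linarith⟩
  have b1 : 1 ∈ B := mem_iUnion.2 ⟨0, by simp only [Function.iterate_zero, id, b0, mem_ofPred_eq]; linarith⟩
  obtain ⟨pc, hp, np⟩ : ∃ p ∈ Icc (0 : ℝ) 1, p ∉ A ∪ B := by
    by_contra! k
    obtain ⟨p, hp, a, e⟩ := isPreconnected_Icc A B (isOpen_iUnion fun n => isOpen_lt (b_cont n 0)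
      continuous_const) (isOpen_iUnion fun n => isOpen_lt continuous_const (b_cont n 0)) k ⟨0, i0, a0⟩
      ⟨1, i1, b1⟩
    exact dis p hp p hp le_rfl a e
  have zz : ∀ p, p ∉ A ∪ B → Z d (b p) := fun p k n =>
    ⟨le_of_not_gt fun l => k (.inl (mem_iUnion.2 ⟨n, l⟩)), le_of_not_gt fun l => k (.inr (mem_iUnion.2 ⟨n, l⟩))⟩
  have one : ∀ p ∈ Icc (0 : ℝ) 1, ∀ q ∈ Icc (0 : ℝ) 1, p < q → p ∉ A ∪ B → q ∉ A ∪ B → False :=
    fun p hp q hq l u v => by
      have := h.cone (b_R hq) (b_R hp) (zz q v) (zz p u) fun k m => by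
        rw [b0, b0, show b q k = b p k by simp [b, m], sub_self, abs_zero]; linarith
      rw [b0, b0] at this
      linarith
  have p0 : 0 < pc := hp.1.lt_of_ne (by rintro rfl; exact np (.inl a0))
  have p1 : pc < 1 := hp.2.lt_of_ne (by rintro rfl; exact np (.inr b1))
  have h1 := h.high (b_R i1) (by rw [b0]; norm_num)
  obtain ⟨L, cL, fL, tL, -⟩ := conv d0 (b_C i1) (by norm_num) (by norm_num)
    (h.con (b_R i1) (h.step (b_R i1)) (.inr ⟨h1 0, h1 1⟩))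
  obtain ⟨E, cE, fE, tE, uE⟩ := conv d0 (b_C hp) (by norm_num) (by norm_num)
    (h.mid (b_R hp) (h.step (b_R hp)) (zz _ np) ((zz _ np).iter 1))
  have mrg : ∀ {F G : ℤ → ℝ} {x : ℝ} (N : ℕ) (k : ℤ), (∀ n, |(Ψ d)^[n] ((Ψ d)^[N] F) k -
      (Ψ d)^[n] ((Ψ d)^[N] G) k| ≤ 1 * (1 / 10) ^ n) → Tendsto (fun n => (Ψ d)^[n] G k) atTop (𝓝 x) →
      Tendsto (fun n => (Ψ d)^[n] F k) atTop (𝓝 x) := fun {F G x} N k u v => by
    rw [← tendsto_add_atTop_iff_nat N] at v ⊢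
    refine v.congr_dist (squeeze_zero (fun _ => dist_nonneg) (fun n => ?_)
      (tendsto_pow_atTop_nhds_zero_of_lt_one (r := (1 / 10 : ℝ)) (by norm_num) (by norm_num)))
    simpa only [Function.iterate_add_apply, one_mul, Real.dist_eq, abs_sub_comm] using u n
  have up : ∀ p ∈ Icc (0 : ℝ) 1, pc < p → ∀ k, Tendsto (fun n => (Ψ d)^[n] (b p) k) atTop (𝓝 (L k)) :=
    fun p q l k => by
      have : p ∈ B := by
        by_contra e
        refine one pc hp p q l np fun a => np (.inl ?_)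
        obtain ⟨n, hn⟩ := mem_iUnion.1 (a.resolve_right e)
        exact mem_iUnion.2 ⟨n, (mono_iter (b_C hp).1 (b_C q).1 (b_mono l.le) n 0).trans_lt hn⟩
      obtain ⟨N, hN⟩ := mem_iUnion.1 this
      exact mrg N k (fun n => h.con (h.iter (b_R q) N) (h.iter (b_R i1) N) (.inr ⟨le_of_lt hN, h1 N⟩) n k)
        (tL k)
  refine ⟨pc, ⟨p0, p1⟩, L, E, cL, cE, fE, ?_, ?_, fun p q l k => ?_, up, tE, fun t ht => ?_⟩
  · linarith [le_of_tendsto' (tL (-1)) fun n => (h.iter (b_R i1) n).2.1 (-1) (by omega),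
      ge_of_tendsto' (tE 0) fun n => (zz _ np n).1]
  · have := h.hi cL.1 (hi0 cL.1 (ge_of_tendsto' (tL 0) h1))
    rw [fL] at this
    linarith [le_of_tendsto' (tE 0) fun n => (zz _ np n).2]
  · have : p ∈ A := by
      by_contra e
      refine one p q pc hp l (fun a => np (.inr ?_)) np
      obtain ⟨n, hn⟩ := mem_iUnion.1 (a.resolve_left e)
      exact mem_iUnion.2 ⟨n, lt_of_lt_of_le hn (mono_iter (b_C q).1 (b_C hp).1 (b_mono l.le) n 0)⟩
    obtain ⟨N, hN⟩ := mem_iUnion.1 this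
    exact mrg N k (fun n => h.con (h.iter (b_R q) N) (h.iter (b_R i0) N) (.inl ⟨le_of_lt hN,
      h.low (b_R i0) (by rw [b0]; linarith) N⟩) n k) (by simpa only [b_shift] using tL (k - 1))
  · obtain ⟨n, hn⟩ := uE _ (half_pos ht)
    have K : (0 : ℝ) < (d ^ 2) ^ n := by have := c.1; positivity
    obtain ⟨p, u, v⟩ := exists_between (show pc < min 1 (pc + t / 2 / (d ^ 2) ^ n) from
      lt_min p1 (lt_add_of_pos_right _ (by positivity)))
    have q : p ∈ Icc (0 : ℝ) 1 := ⟨by linarith, (v.trans_le (min_le_left _ _)).le⟩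
    refine ⟨_, (b_C q).iter d0 n, fun k => ?_, ?_⟩
    · have w := b_lip (d := d) q hp n k
      have := (lt_div_iff₀ K).1 (sub_left_lt_of_lt_add (v.trans_le (min_le_right _ _)))
      rw [abs_of_pos (sub_pos.2 u)] at w
      linarith [abs_sub_le ((Ψ d)^[n] (b p) k) ((Ψ d)^[n] (b pc) k) (E k), hn k]
    · simpa only [Function.iterate_add_apply] using (tendsto_add_atTop_iff_nat n).2 (up p q u 0)

end Pool.Agent.H.MP_023911_pr
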