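import Pool.Agent.H.MP_023911_pr.A

/-! The critical point of the noisy min-max game with random boundary. -/

open Filter Topology MeasureTheory ProbabilityTheory Set

namespace Pool.Agent.H.MP_023911_pr

open Pool.Agent.Lib.helper3.MM

variable {d : ℕ} {Ω : Type*} [mΩ : MeasurableSpace Ω]

def Model (p : ℝ) (P : Measure Ω) (X B : List (Fin d) → Ω → ℤ) : Prop :=
  (∀ v, Measurable (X v)) ∧ (∀ v, Measurable (B v)) ∧ iIndepFun (Sum.elim X B) P ∧
    ∀ v, P.real {ω | X v ω = 1} = 1 / 2 ∧ P.real {ω | X v ω = -1} = 1 / 2 ∧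
      P.real {ω | B v ω = 0} = p ∧ P.real {ω | B v ω = 2} = 1 - p

def S (v : List (Fin d)) : Set (List (Fin d) ⊕ List (Fin d)) :=
  {i | Sum.elim (fun w => ∃ c l, l ++ c :: v = w) (fun w => v <:+ w) i}

lemma ok : Ok (d := d) Sum.inl S where
  mem c v := ⟨c, [], rfl⟩
  sub c v := by
    rintro (w | w)
    exacts [fun ⟨e, l, h⟩ => ⟨c, l ++ [e], by simpa using h⟩, fun h => (List.suffix_cons c v).trans h]
  not v := fun ⟨c, l, h⟩ => by
    have := congrArg List.length h
    simp at this; omega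
  dis v c c' h := disjoint_left.2 fun w p q => by
    have a : ∀ c, w ∈ insert (Sum.inl (c :: v)) (S (c :: v)) → c :: v <:+ Sum.elim id id w := by
      rintro c (rfl | h)
      · exact List.suffix_refl _
      · rcases w with w | w
        · obtain ⟨e, l, rfl⟩ := h
          exact ⟨l ++ [e], by simp⟩
        · exact h
    exact h (by simpa using (List.suffix_of_suffix_length_le (a _ p) (a _ q) (by simp)).eq_of_length (by simp))

variable {P : Measure Ω} [IsProbabilityMeasure P] {X B : List (Fin d) → Ω → ℤ} {p : ℝ}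

lemma Model.law (h : Model p P X B) (hd : 0 < d) (n : ℕ) :
    Measurable (fun ω => V (X · ω) (B · ω) (2 * n) []) ∧
      ∀ x, P.real {ω | V (X · ω) (B · ω) (2 * n) [] ≤ x} = (Ψ d)^[n] (b p) (x / 2) := by
  obtain ⟨mX, mB, hi, hl⟩ := h
  have hm : ∀ i, Measurable (Sum.elim X B i) := by rintro (i | i); exacts [mX i, mB i]
  have hB : ∀ v, Measurable[M (Sum.elim X B) (S v)] (B v) := fun v =>
    mZ (Z := Sum.elim X B) (i := .inr v) (List.suffix_refl v)
  refine ⟨(mV ok hB _ _).mono (M_le hm _) le_rfl, fun x => Lib.helper3.MM.law hd ok hm hi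
    (fun v => (hl v).1) (fun v => (hl v).2.1) hB (fun v x _ => ?_) n [] x (by simp)⟩
  have ae : ∀ᵐ ω ∂P, B v ω = 0 ∨ B v ω = 2 := by
    have : P.real ({ω | B v ω = 0} ∪ {ω | B v ω = 2}) = 1 := by
      have dj : Disjoint {ω | B v ω = 0} {ω | B v ω = 2} := disjoint_left.2 fun ω p q => by
        simp only [mem_ofPred_eq] at p q; omega
      rw [measureReal_union dj (by exact mB v (measurableSet_singleton 2)), (hl v).2.2.1, (hl v).2.2.2]
      ring
    exact (mem_ae_iff_prob_eq_one ((mB v (measurableSet_singleton 0)).union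
      (mB v (measurableSet_singleton 2)))).2 ((ENNReal.toReal_eq_one_iff _).1 this)
  unfold b
  split_ifs
  · rw [measureReal_congr (t := ∅) (ae.mono fun ω h => propext (iff_false_intro (by
      show ¬ B v ω ≤ x; omega))), measureReal_empty]
  · rw [measureReal_congr (t := {ω | B v ω = 0}) (ae.mono fun ω h => propext (by
      show B v ω ≤ x ↔ B v ω = 0; omega)), (hl v).2.2.1]
  · rw [measureReal_congr (t := univ) (ae.mono fun ω h => propext (iff_true_intro (by
      show B v ω ≤ x; omega))), probReal_univ]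

lemma C.cdf {F : ℤ → ℝ} (h : C F) : ∃ μ : ProbabilityMeasure ℤ, ∀ x, (μ : Measure ℤ).real (Iic x) = F (x / 2) :=
  exists_cdf (fun i j l => h.2.1 (by omega))
    (h.2.2.1.comp (tendsto_atBot.2 fun b => eventually_atBot.2 ⟨2 * b, fun k l => by omega⟩))
    (h.2.2.2.comp (tendsto_atTop.2 fun b => eventually_atTop.2 ⟨2 * b, fun k l => by omega⟩))

lemma shift (μ : Measure ℤ) (x : ℤ) : (μ.map (· + 2)).real (Iic x) = μ.real (Iic (x - 2)) := by
  rw [map_measureReal_apply .of_discrete .of_discrete]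
  congr 1; ext; simp

noncomputable def Φ (d : ℕ) (F : ℤ → ℝ) (i : ℤ) : ℝ :=
  (1 - (1 - (F (i - 2) + F i) / 2) ^ d / 2 - (1 - (F i + F (i + 2)) / 2) ^ d / 2) ^ d

lemma Φ_eq (F : ℤ → ℝ) : Φ d (fun x => F (x / 2)) = fun x => Ψ d F (x / 2) := funext fun x => by
  simp only [Φ, Ψ, Q, show (x - 2) / 2 = x / 2 - 1 by omega, show (x + 2) / 2 = x / 2 + 1 by omega]

lemma Φ_iter (n : ℕ) : ∀ F : ℤ → ℝ, (Φ d)^[n] (fun x => F (x / 2)) = fun x => (Ψ d)^[n] F (x / 2) := by
  induction n with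
  | zero => exact fun _ => rfl
  | succ n ih => intro F; rw [Function.iterate_succ_apply, Φ_eq, ih]; rfl

def Stable (d : ℕ) (F : ℤ → ℝ) : Prop :=
  ∃ t > 0, ∀ μ : ProbabilityMeasure ℤ, (∀ i, |(μ : Measure ℤ).real (Iic i) - F i| ≤ t) →
    ∀ i, Tendsto (fun n => (Φ d)^[n] (fun j => (μ : Measure ℤ).real (Iic j)) i) atTop (𝓝 (F i))

theorem all : ∃ d₀, ∀ d ≥ d₀, ∃ pc ∈ Ioo (0 : ℝ) 1, ∃ μ ν : ProbabilityMeasure ℤ,
    (μ : Measure ℤ) ≠ (μ : Measure ℤ).map (· + 2) ∧ ν ≠ μ ∧ (ν : Measure ℤ) ≠ (μ : Measure ℤ).map (· + 2) ∧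
    Φ d (fun i => (ν : Measure ℤ).real (Iic i)) = (fun i => (ν : Measure ℤ).real (Iic i)) ∧
    ¬ Stable d (fun i => (ν : Measure ℤ).real (Iic i)) ∧
    ∀ p ∈ Icc (0 : ℝ) 1, ∀ (Ω : Type) [MeasurableSpace Ω] (P : Measure Ω) [IsProbabilityMeasure P]
      (X B : List (Fin d) → Ω → ℤ), Model p P X B →
      (p < pc → TendstoInDistribution (fun n ω => V (X · ω) (B · ω) (2 * n) []) atTop (· + 2)
        (fun _ => P) μ) ∧
      (pc < p → TendstoInDistribution (fun n ω => V (X · ω) (B · ω) (2 * n) []) atTop id (fun _ => P) μ) ∧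
      (p = pc → TendstoInDistribution (fun n ω => V (X · ω) (B · ω) (2 * n) []) atTop id (fun _ => P) ν) := by
  obtain ⟨ρ, d₀, h⟩ := big
  refine ⟨d₀, fun d hd => ?_⟩
  have d0 : 0 < d := by linarith [(h d hd).hd]
  obtain ⟨pc, hp, L, E, cL, cE, fE, l1, l2, t1, t2, t3, un⟩ := crit (h d hd)
  obtain ⟨μ, hμ⟩ := cL.cdf
  obtain ⟨ν, hν⟩ := cE.cdf
  have s0 : ((μ : Measure ℤ).map (· + 2)).real (Iic 0) = L (-1) := by rw [shift, hμ]; rfl
  refine ⟨pc, hp, μ, ν, fun c => ?_, fun c => ?_, fun c => ?_, ?_, fun ⟨t, ht, c⟩ => ?_,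
    fun p q Ω _ P _ X B m => ⟨fun l => ?_, fun l => ?_, fun l => ?_⟩⟩
  · rw [← c, hμ] at s0; simp at s0; linarith
  · have := hν 0
    rw [c, hμ] at this; simp at this; linarith
  · rw [← c, hν] at s0; simp at s0; linarith
  · simp only [hν, Φ_eq, fE]
  · obtain ⟨G, cG, g1, g2⟩ := un t ht
    obtain ⟨κ, hκ⟩ := cG.cdf
    have := c κ (fun i => by simp only [hκ, hν, g1]) 0
    simp only [hκ, hν, Φ_iter, Int.zero_ediv] at this
    exact l2.ne (tendsto_nhds_unique this g2)
  · have := weak (P := P) (fun n => (m.law d0 n).1) (μ := ⟨(μ : Measure ℤ).map (· + 2),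
      Measure.isProbabilityMeasure_map (Measurable.of_discrete).aemeasurable⟩) fun x => by
        simpa only [(m.law d0 _).2, ProbabilityMeasure.coe_mk, shift, hμ,
          show (x - 2) / 2 = x / 2 - 1 by omega] using t1 p q l (x / 2)
    exact ⟨this.1, (Measurable.of_discrete).aemeasurable, by simpa using this.3⟩
  · exact weak (fun n => (m.law d0 n).1) fun x => by simpa only [(m.law d0 _).2, hμ] using t2 p q l (x / 2)
  · subst l
    exact weak (fun n => (m.law d0 n).1) fun x => by simpa only [(m.law d0 _).2, hν] using t3 (x / 2)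

end Pool.Agent.H.MP_023911_pr
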